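import Mathlib
import Pool.Agent.T9h90.FT.Seq

/-!
# Exponential lower bounds for Frege refutations whose lines have small Fourier tails

The lines of the refutations are arbitrary formulas over conjunction, disjunction and negation, of
any depth. Only their length, or their high Fourier coefficients, are restricted: a line is
admissible if it has at most `K n` occurrences of variables (`n` is the number of variables of the
refuted set of clauses, and a small linear number of variables may even occur arbitrarily often), or
if its Boolean function has Fourier weight at most `2 ^ (-γ n)` on the levels above `c n`, for
example if it is a real polynomial of degree at most `c n`. The rules are any sound rules with at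
most `r` premises; so all Frege systems are covered. The refutations start from the clauses. The
clauses have total size `O(n)`. They are the parity conditions of the vertices of a sparse random
graph with `M` edges (Tseitin formulas), where each edge variable is replaced by the sum modulo two
of `q` variables, its block; `n = q M`. They have polynomial size refutations in the unrestricted
Frege systems.

Proof. Choose at random one variable of each block and values for all other variables. The Fourier
weight at the levels above `c₄ M` of the restriction of a line `f` is in the mean at most
`2 ^ (-8 M)`, as a set of less than `c n` variables contains more than `c₄ M` of the chosen variables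
only with such a probability. But the Fourier coefficients of a Boolean function of `M` variables
are integral multiples of `2 ^ (-M)`. So with high probability all lines become functions of exact
degree at most `c₄ M`, if there are less than `2 ^ (ε n)` lines. Such a refutation of the Tseitin
formula is impossible: the linear functional on the polynomials of degree at most `h` (linear in
`M`) which is defined by the consequences of few parity conditions vanishes at `1 - f` for the
axioms, is nonnegative at squares, and so by the inequality of Cauchy and Schwarz it vanishes at
`(1 - f) g` for all `g` of degree at most `h / 2`, for all lines `f` by induction; but it is 1 at 1.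

The formulas with at most `K n` occurrences have small Fourier tails: variables with many
occurrences are fixed (they only shift the levels), the remaining formula is cut into pieces of
bounded size, and by the theorem of Khrapchenko a random restriction with one free variable in each
block of bounded size makes almost all blocks irrelevant, with probability exponentially close to
one.
-/

set_option autoImplicit false

namespace Pool.Agent.Results.MP_51bb46_lc.FourierTails

open Pool.Agent.T9h49.RK Pool.Agent.T9h90.FT

/-- There are constants `c r > 0` such that
(1) for all `R`, `K` and `γ > 0` there are an `ε > 0` and for arbitrarily large `n` unsatisfiable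
sets `F` of clauses in the first `n` variables, of size at most `n / ε`, such that for each
`r ≤ R` and each set of sound rules with at most `r` premises every refutation of `F`, whose lines
are admissible for `c r`, `K`, `γ`, `n`, has at least `2 ^ (ε n)` lines;
(2) there is a single sequence `F i` of unsatisfiable sets of clauses in `n i ≥ i` variables such
that for each set of sound rules with at most `r` premises (each Frege system) and all `K`, `k`,
`γ > 0`, for all large `i` every refutation of `F i`, whose lines are admissible for `c r`, `K`,
`γ`, `n i`, has more than `|F i| ^ k` lines. -/
theorem result : ∃ c : ℕ → ℝ, (∀ r, 0 < c r) ∧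
    (∀ (R K : ℕ) (γ : ℝ), 0 < γ → ∃ ε : ℝ, 0 < ε ∧ ∀ m : ℕ, ∃ n : ℕ, m ≤ n ∧ ∃ F : List PForm,
      (∀ A ∈ F, A.IsClause ∧ A.vars ⊆ Finset.range n) ∧ Unsat F ∧ ε * sizeL F ≤ n ∧
      ∀ r ≤ R, ∀ Φ : Set Rule, (∀ ρ ∈ Φ, ρ.Sound ∧ ρ.prem.length ≤ r) → ∀ π : List PForm,
        Refutes Φ F π → (∀ A ∈ π, Adm (c r) K γ n A) → (2 : ℝ) ^ (ε * n) ≤ π.length) ∧
    ∃ (n : ℕ → ℕ) (F : ℕ → List PForm), (∀ i, i ≤ n i ∧
      (∀ A ∈ F i, A.IsClause ∧ A.vars ⊆ Finset.range (n i)) ∧ Unsat (F i)) ∧
      ∀ (Φ : Set Rule) (r : ℕ), (∀ ρ ∈ Φ, ρ.Sound ∧ ρ.prem.length ≤ r) →
        ∀ (K k : ℕ) (γ : ℝ), 0 < γ → ∃ i₀, ∀ i, i₀ ≤ i → ∀ π : List PForm,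
          Refutes Φ (F i) π → (∀ A ∈ π, Adm (c r) K γ (n i) A) →
            sizeL (F i) ^ k < π.length := by
  obtain ⟨c, hc, h⟩ := Pool.Agent.T9h90.FT.main
  exact ⟨c, hc, h, Pool.Agent.T9h90.FT.seq c h⟩

end Pool.Agent.Results.MP_51bb46_lc.FourierTails
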